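import Pool.Agent.APG.ResA

/-!
# MP_47f3f4_co : `T(P × P) = 3` for almost all `p`-groups with central elementary abelian Frattini
subgroup

`T` (the largest degree of a partial congruence partition) is defined in
`Pool/Agent/Helper19/PCP.lean`, `numIso` (the number of isomorphism classes of groups of order `N`
with a property) in `Pool/Agent/APG/Defs.lean`.

**Proof.** Let `V = P / Φ(P)`, `W = Φ(P)`, of dimensions `d` and `m` over `F_p`, with the commutator
map `β : V × V → W` and the `p`-th power map `π : V → W`. A member `U` of a partial congruence
partition of `P × P` has an image `U'` in `V × V`, and `K = U ∩ (W × W)` contains the values of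
`(β, β)` and `(π, π)` on `U'`. For `(β, π)` generic (large subspaces have many commutators, the
commutators of a subspace of small codimension generate `W`, a subspace does not commute with a
subspace of at most the same codimension, and no nontrivial element of `GL(V) × GL(W)` fixes `(β, π)`)
these values generate a space of dimension at least `m` if `dim U' = d`, and if the dimension is `m`
this space is `W × 0`, `0 × W` or the diagonal. As `dim U'_i + dim K_i = d + m` and `K_i ∩ K_j = 0`,
there are at most three members. The exceptional `(β, π)` are counted by union bounds; for the last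
condition a maximal subspace `S` with `S ∩ φ(S) = 0` bounds both the rank of `φ` minus a scalar and the
dimension of the space of the `β` fixed by `(φ, κ)`. The isomorphism classes are the orbits of
`GL(V) × GL(W)` on the pairs `(β, π)` whose values generate `W`, and they are counted with Burnside's
lemma. The pairs `(d, m)` with `m > d` or `4 m < d` are negligible, since the number of classes with
given `(d, m)` is at most `p ^ (m d (d + 1) / 2)`.

Rows by helpers 3, 7, 12, 20, 25, 44, 63, 69, 72, 73, 80 and 96.
-/

set_option autoImplicit false

namespace Pool.Agent.Results.MP_47f3f4_co.AlmostAll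

open Pool.Agent.APG Pool.Agent.Helper19.PCP

/-- The Frattini subgroup of `P` is central and elementary abelian: it is contained in the centre and
its elements satisfy `x ^ p = 1`. -/
def CentralFrattini (p : ℕ) (P : Type) [Group P] : Prop :=
  frattini P ≤ Subgroup.center P ∧ ∀ x ∈ frattini P, x ^ p = 1

/-- Let `p` be a prime and `n ≥ 40000`. Among the isomorphism classes of groups `P` of order `p ^ n`
whose Frattini subgroup is central and elementary abelian, at most the fraction `p ^ (-n)` has
`T(P × P) ≠ 3`. -/
theorem result (p : ℕ) (hp : p.Prime) (n : ℕ) (hn : 40000 ≤ n) :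
    p ^ n * numIso (p ^ n) (fun P _ => CentralFrattini p P ∧ T (P × P) ≠ 3) ≤
      numIso (p ^ n) (fun P _ => CentralFrattini p P) := by
  have : Fact p.Prime := ⟨hp⟩
  have h1 : numIso (p ^ n) (fun P _ => CentralFrattini p P) = numIso (p ^ n) (QAll p n) :=
    numIso_congr fun g => ⟨fun h => ⟨Nat.card_fin _, h⟩, fun h => h.2⟩
  have h2 : numIso (p ^ n) (fun P _ => CentralFrattini p P ∧ T (P × P) ≠ 3) =
      numIso (p ^ n) (QBad p n) :=
    numIso_congr fun g => ⟨fun h => ⟨⟨Nat.card_fin _, h.1⟩, h.2⟩, fun h => ⟨h.1.2, h.2⟩⟩
  rw [h1, h2]
  exact main p n hn

end Pool.Agent.Results.MP_47f3f4_co.AlmostAll
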