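import Pool.Agent.XV3.Fin

/-!
# MP_47f3f4_co : the exact value of `T(P × P)` for the non-abelian `p`-groups with Frattini
subgroup of order `p`

Let `p` be a prime and `P` a non-abelian `p`-group whose Frattini subgroup has order `p`, `Z` the
centre of `P`. If `Z` is not of exponent `p`, then `T(P × P) = p + 1`. Let `Z` be of exponent `p`,
`|Z| = p ^ c`, `|P| = p ^ (2 m + c)`.
* `p` odd, `P` not of exponent `p`: `T = 3`.
* `p` odd, `P` of exponent `p`: `T = p + 1` if `c = 1`, `p ^ c + 2` if `2 ≤ c ≤ m`,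
  `p ^ m + p + 1` if `c > m` and `c ≥ 2`.
* `p = 2` and (`c = 1` or `P` has no elementary abelian subgroup of order `2 ^ (m + c)`): `T = 3`.
* `p = 2`, `c ≥ 2`, and `P` has an elementary abelian subgroup of order `2 ^ (m + c)`: `T = 4` if `m`
  is odd, `2 ^ c + 2` if `m` is even and `c < m`, `2 ^ (m - 1) + 3` if `m` is even and `c ≥ m`.

**Proof.** `W = {z ∈ Z : z ^ p = 1}` and `V = P / W` are vector spaces over `F_p`, the commutator is
`ω(v, v') w₀` and the `p`-th power `F(v) w₀`, with `ω` alternating and `F` linear (`p` odd) or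
quadratic with polar form `ω` (`p = 2`). A member `U` has an image `X` in `V × V` and a trace `Y` in
`W × W`, `dim X + dim Y = dim V + dim W`, `X + X' = V × V` and `Y ∩ Y' = 0` for different members.
Members with `Y ∩ ⟨(w₀, 0), (0, w₀)⟩ = 0` have `X ≤ A₁ × A₂` with `A_i` totally isotropic
(totally singular if `p = 2`); two of them force `X = A₁ × A₂` with `dim A_i = m`, so their number is
bounded by the size of a partial spread, which is at most `2` if `p = 2` and `m` is odd, and by the
number of singular vectors at most `2 ^ (m - 1) + 1` if `p = 2` and `m` is even. All members other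
than at most two satisfy `dim Y ≥ dim W`, and count at most `p ^ c`. The partitions which attain the
bounds are built with the fields of `p ^ m` and `p ^ c` elements; for `p = 2` and `m` even with the
Kerdock set of `2 ^ (m - 1)` alternating matrices with non-singular differences.

Rows by helpers 19, 20, 38, 43, 44, 50, 64, 65, 66, 73 and 84.
-/

set_option autoImplicit false

namespace Pool.Agent.Results.MP_47f3f4_co.FrattiniP

open Pool.Agent.Helper19.PCP

/-- Let `p` be a prime and `P` a finite non-abelian `p`-group whose Frattini subgroup has order `p`.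
The value of `T(P × P)`. -/
theorem result (p : ℕ) (hp : p.Prime) (P : Type) [Group P] [Finite P] (hP : IsPGroup p P)
    (hna : ∃ a b : P, a * b ≠ b * a) (hF : Nat.card (frattini P) = p) :
    ((∃ z ∈ Subgroup.center P, z ^ p ≠ 1) → T (P × P) = p + 1) ∧
    ((∀ z ∈ Subgroup.center P, z ^ p = 1) →
      ∃ m c : ℕ, Nat.card (Subgroup.center P) = p ^ c ∧ Nat.card P = p ^ (2 * m + c) ∧
        (p ≠ 2 → (∃ x : P, x ^ p ≠ 1) → T (P × P) = 3) ∧
        (p ≠ 2 → (∀ x : P, x ^ p = 1) →
          T (P × P) = if c = 1 then p + 1 else if c ≤ m then p ^ c + 2 else p ^ m + p + 1) ∧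
        (p = 2 → (c = 1 ∨ ¬ ∃ A : Subgroup P, Nat.card A = 2 ^ (m + c) ∧ ∀ x ∈ A, x ^ 2 = 1) →
          T (P × P) = 3) ∧
        (p = 2 → c ≠ 1 → (∃ A : Subgroup P, Nat.card A = 2 ^ (m + c) ∧ ∀ x ∈ A, x ^ 2 = 1) →
          T (P × P) = if Odd m then 4 else if c < m then 2 ^ c + 2 else 2 ^ (m - 1) + 3)) := by
  have : Fact p.Prime := ⟨hp⟩
  by_cases hp2 : p = 2
  · subst hp2
    have h := Pool.Agent.XV2.frattini_two P hP hna hF
    refine ⟨fun hz => h.1 hz, fun hz => ?_⟩
    obtain ⟨m, c, hc, hm⟩ := Pool.Agent.XV3.exists_mc_two P hP hna hF hz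
    obtain ⟨h1, h2⟩ := h.2 hz m c hc hm
    exact ⟨m, c, hc, hm, fun h3 => absurd rfl h3, fun h3 => absurd rfl h3, fun _ h3 => h1 h3,
      fun _ h3 h4 => h2 h3 h4⟩
  · have h := Pool.Agent.XV.frattini_exact hp2 P hP hna hF
    refine ⟨h.1, fun hz => ?_⟩
    obtain ⟨m, c, hc, hm⟩ := Pool.Agent.XV3.exists_mc_odd hp2 P hP hna hF hz
    exact ⟨m, c, hc, hm, fun _ h3 => h.2.1 hz h3, fun _ h3 => h.2.2 h3 m c hc hm,
      fun h3 => absurd h3 hp2, fun h3 => absurd h3 hp2⟩

end Pool.Agent.Results.MP_47f3f4_co.FrattiniP
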