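import Pool.Agent.Helper60.PCP.Half

/-!
# MP_47f3f4_co : a bound of order `|P| ^ (1/2)` for `T(P × P)`, `P` any non-abelian `p`-group

For every non-abelian group `P` of order `p ^ n`,
`(p - 1) T(P × P) ≤ (p + 1) p ^ (n / 2)` if `n` is even and
`(p - 1) T(P × P) ≤ (p + 2) p ^ ((n - 1) / 2)` if `n` is odd.
-/

namespace Pool.Agent.Results.MP_47f3f4_co.HalfBound

open Pool.Agent.Helper19.PCP

/-- For every prime `p` and every non-abelian group `P` of order `p ^ n`,
`(p - 1) T(P × P) ≤ (p + 1 + (n mod 2)) p ^ ⌊n / 2⌋`. -/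
theorem result (p n : ℕ) [Fact p.Prime] (P : Type) [Group P] [Finite P]
    (hn : Nat.card P = p ^ n) (hna : ∃ a b : P, a * b ≠ b * a) :
    (p - 1) * T (P × P) ≤ (p + 1 + n % 2) * p ^ (n / 2) :=
  Pool.Agent.Helper60.PCP.half_bound hn hna

end Pool.Agent.Results.MP_47f3f4_co.HalfBound
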