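import Pool.Agent.MC.Main

/-!
# MP_47f3f4_co : the exact value of `T(P × P)` for the metacyclic `p`-groups

Let `P` be a finite non-abelian metacyclic `p`-group. Then `T(P × P) = p + 3` if
`|P| = exp(P) ^ 2` and (for `p = 2`) `P'` lies in the subgroup generated by the fourth powers, and
`T(P × P) = 3` otherwise.

**Proof.** Let `⟨a⟩` be normal, `P = ⟨a, b⟩`, `a b = b a ^ r`. Let `r = 1` modulo `p`, and modulo `4`
if `p = 2`. As `P` is not abelian, `b ^ v a ^ u ↦ (v, u)` is a homomorphism `π` of `P` onto
`V = F_p ^ 2`. The same holds for the subgroups `P_i = {b ^ (p ^ i v) a ^ (p ^ i u)}` as long as they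
are not cyclic. Let `H = P_e` be the last one which is not cyclic, `λ : H → V` its homomorphism. Then
`λ(x ^ (p ^ e)) = π(x)`, the kernel `N = P_(e+1)` of `λ` is cyclic, of order `p ^ k`, and if `k > 0`
then `x ^ (p ^ (e + k)) = w ^ κ(π(x))` with `w` of order `p` and a linear form `κ ≠ 0` on `V`. We have
`|P| = p ^ (2 (e + 1) + k)` and `exp(P) = p ^ (e + 1 + k)`, so `|P| = exp(P) ^ 2` if and only if
`k = 0`. A certain power of the commutator of `x` and `y` is `z ^ det(π(x), π(y))` with `z` of order
`p` in `H`. Let `U` be a member of a partial congruence partition of `P × P` with at least three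
members, and `D` its image in `V × V`. If `k > 0`, the images of the members under `κ × κ` are
different points of a projective line, so `U` contains an element of order `p ^ (e + 1 + k)` and
`|U ∩ (N × N)| ≥ |N|`. Hence `|U ∩ (H × H)| |U' ∩ (H × H)| ≤ |H| ^ 2` forces `D` to be the image of
`U ∩ (H × H)` under `λ × λ` and to be of dimension two, and `D ∩ D' = 0` for different members. The
powers of commutators in `U` lie in `H × H`, so with `ζ = λ(z)` the subspace `D` contains
`(det(x, y) ζ, det(x', y') ζ)` for all `(x, x')`, `(y, y')` in `D`. If `k = 0` there are at most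
`p + 3` such `D`, if `k > 0` at most three; if `k > 0` and `ζ = 0`, then instead
`(det(x, y), det(x', y'))` lies in the image of `D` under `κ × κ`, and again there are at most three.
For `k = 0` the subgroups `A_i × A_(i + 1)` (`A_i = ⟨b a ^ i⟩`, `i` modulo `p`), `{(x, x)}`,
`{(x, h(x))}`, `{(h(x), x)}`, where `h` is the endomorphism with `h(b ^ v a ^ u) = a ^ v`, are `p + 3`
members. The case `p = 2`, `r = 3` modulo `4` is treated separately (file `Two50`): `T(P × P) = 3`.

Rows by helpers 38, 50 and 98.
-/

set_option autoImplicit false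

namespace Pool.Agent.Results.MP_47f3f4_co.Metacyclic

open Pool.Agent.Helper19.PCP

/-- Let `p` be a prime and `P` a finite non-abelian metacyclic `p`-group, i.e. `P` has a cyclic
normal subgroup with cyclic quotient. Then `T(P × P) = p + 3` if `|P| = exp(P) ^ 2` and, in the case
`p = 2`, the commutator subgroup `P'` is contained in the subgroup generated by the fourth powers,
and `T(P × P) = 3` otherwise. -/
theorem result (p : ℕ) (hp : p.Prime) (P : Type) [Group P] [Finite P] (hP : IsPGroup p P)
    (hna : ∃ a b : P, a * b ≠ b * a)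
    (hM : ∃ A : Subgroup P, ∃ _ : A.Normal, IsCyclic A ∧ IsCyclic (P ⧸ A)) :
    ((Nat.card P = Monoid.exponent P ^ 2 ∧
      (p = 2 → commutator P ≤ Subgroup.closure {x | ∃ y : P, x = y ^ 4})) →
        T (P × P) = p + 3) ∧
    (¬ (Nat.card P = Monoid.exponent P ^ 2 ∧
      (p = 2 → commutator P ≤ Subgroup.closure {x | ∃ y : P, x = y ^ 4})) →
        T (P × P) = 3) := by
  have : Fact p.Prime := ⟨hp⟩
  exact Pool.Agent.MC.metacyclic_exact hP hna hM

end Pool.Agent.Results.MP_47f3f4_co.Metacyclic
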